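import Pool.Agent.W770.PC.Stms

/-! # `S_cls`: every flat cell is in exactly one class -/

set_option autoImplicit false

open MeasureTheory Set Filter Topology
open scoped ENNReal NNReal

namespace Pool.Agent.W293.PC

open Pool.Agent.W770.PC

theorem cls_ex (m : ℝ) : ∃ b, cls b m := by
  classical
  have hex : ∃ b : ℕ, m ≤ 2 ^ b := by
    obtain ⟨n, hn⟩ := pow_unbounded_of_one_lt m (one_lt_two)
    exact ⟨n, hn.le⟩
  refine ⟨Nat.find hex, Nat.find_spec hex, ?_⟩
  rcases Nat.eq_zero_or_pos (Nat.find hex) with h | h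
  · exact Or.inl h
  · right
    have h1 : ¬ m ≤ 2 ^ (Nat.find hex - 1) := Nat.find_min hex (by omega)
    have h2 : (2 : ℝ) ^ (Nat.find hex) = 2 * 2 ^ (Nat.find hex - 1) := by
      rw [← pow_succ']
      congr 1
      omega
    rw [h2]
    push Not at h1
    linarith

theorem cls_le {b b' : ℕ} {m : ℝ} (h : cls b m) (h' : cls b' m) : b' ≤ b := by
  by_contra hlt
  push Not at hlt
  rcases h'.2 with h0 | h0
  · omega
  · have h1 : (2 : ℝ) ^ (b + 1) ≤ 2 ^ b' := pow_le_pow_right₀ one_le_two hlt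
    rw [pow_succ] at h1
    have := h.1
    linarith

theorem cls_uniq {b b' : ℕ} {m : ℝ} (h : cls b m) (h' : cls b' m) : b = b' :=
  le_antisymm (cls_le h' h) (cls_le h h')

theorem det2_le (g : ℝ × ℝ → ℝ) (y : ℝ × ℝ) : |det2 g y| ≤ hess g y ^ 2 := by
  have h1 : |det2 g y| ≤ |d1 (d1 g) y| * |d2 (d2 g) y| + |d1 (d2 g) y| ^ 2 := by
    unfold det2
    calc _ ≤ |d1 (d1 g) y * d2 (d2 g) y| + |d1 (d2 g) y ^ 2| := abs_sub _ _
      _ = _ := by rw [abs_mul, abs_pow]
  unfold hess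
  have a1 := abs_nonneg (d1 (d1 g) y)
  have a2 := abs_nonneg (d1 (d2 g) y)
  have a3 := abs_nonneg (d2 (d2 g) y)
  nlinarith [mul_nonneg a1 a2, mul_nonneg a2 a3, mul_nonneg a1 a3, sq_nonneg (|d1 (d1 g) y|),
    sq_nonneg (|d2 (d2 g) y|)]

theorem DD_le (h2 : S_cell) {C : ℝ} {F h : ℝ × ℝ → ℝ} (hT : Tame C F h) (t : ℝ) (a : ℕ)
    (k : ℕ × ℕ) (hk : k ∈ grid a) (hN1 : NN (ph F h t) a k ≤ 1)
    (hN2 : 1 ≤ C * NN (ph F h t) a k) : DD (ph F h t) a k ≤ 4 * C ^ 2 * 4 ^ a := by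
  have hN0 : 0 ≤ NN (ph F h t) a k := by
    apply integral_nonneg
    intro y
    unfold hess
    positivity
  have hC : 0 < C := by
    by_contra hneg
    push Not at hneg
    have := mul_nonneg (neg_nonneg.mpr hneg) hN0
    linarith
  have hvol := h2.2.1 a k
  have h3 : ∀ y ∈ cell a k, ‖|det2 (ph F h t) y|‖ ≤ (C * 4 ^ a) ^ 2 := by
    intro y hy
    rw [Real.norm_eq_abs, abs_abs]
    refine (det2_le _ y).trans ?_
    have h4 := hT.sup2 t a k hk y hy
    have h5 : 0 ≤ hess (ph F h t) y := by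
      unfold hess
      positivity
    have h6 : C * 4 ^ a * NN (ph F h t) a k ≤ C * 4 ^ a := by
      have : 0 < C * 4 ^ a := by positivity
      nlinarith
    exact pow_le_pow_left₀ h5 (h4.trans h6) 2
  have h4 := norm_setIntegral_le_of_norm_le_const (μ := volume) (s := cell a k)
    (by rw [hvol]; exact ENNReal.ofReal_lt_top) h3
  have h5 : volume.real (cell a k) = 4 * (4 ^ a)⁻¹ := by
    rw [Measure.real, hvol, ENNReal.toReal_ofReal (by positivity)]
  rw [h5] at h4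
  calc DD (ph F h t) a k ≤ ‖∫ y in cell a k, |det2 (ph F h t) y|‖ := le_abs_self _
    _ ≤ (C * 4 ^ a) ^ 2 * (4 * (4 ^ a)⁻¹) := h4
    _ = 4 * C ^ 2 * 4 ^ a := by
      have : (4 : ℝ) ^ a ≠ 0 := by positivity
      field_simp

theorem cls_thm (_h1 : S_der) (h2 : S_cell) : S_cls := by
  classical
  intro C
  obtain ⟨c0, hc0⟩ := pow_unbounded_of_one_lt (8 * C ^ 2) (one_lt_two)
  refine ⟨c0 + 1, fun F h hT t a f hf => ?_⟩
  set g := ph F h t with hg
  have hbd : ∀ k ∈ grid a, NN g a k ≤ 1 → 1 ≤ C * NN g a k → ∀ b, cls b (DD g a k) →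
      b < 2 * a + (c0 + 1) := by
    intro k hk hN1 hN2 b hb
    rcases hb.2 with h0 | h0
    · omega
    · have h3 := DD_le h2 hT t a k hk hN1 hN2
      by_contra hge
      push Not at hge
      have h4 : (2 : ℝ) ^ (2 * a + (c0 + 1)) ≤ 2 ^ b := pow_le_pow_right₀ one_le_two hge
      have h5 : (2 : ℝ) ^ (2 * a + (c0 + 1)) = 4 ^ a * 2 ^ c0 * 2 := by
        rw [pow_add, pow_mul, pow_succ]
        norm_num
        ring
      have h6 : (0 : ℝ) < 4 ^ a := by positivity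
      have h7 : (4 : ℝ) ^ a * (8 * C ^ 2) < 4 ^ a * 2 ^ c0 := mul_lt_mul_of_pos_left hc0 h6
      have h8 : (0 : ℝ) ≤ 4 ^ a * 2 ^ c0 := by positivity
      have h9 : 2 * DD g a k ≤ 8 * C ^ 2 * 4 ^ a := by linarith
      nlinarith
  unfold KK FL
  simp only [Finset.sum_filter]
  rw [Finset.sum_comm]
  apply Finset.sum_congr rfl
  intro k hk
  by_cases hN1 : NN g a k ≤ 1
  · rw [if_pos hN1]
    by_cases hN2 : 1 ≤ C * NN g a k
    · obtain ⟨b0, hb0⟩ := cls_ex (DD g a k)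
      rw [Finset.sum_eq_single b0]
      · rw [if_pos ⟨hN1, hN2, hb0⟩]
      · intro b _ hb
        rw [if_neg]
        rintro ⟨_, _, h3⟩
        exact hb (cls_uniq h3 hb0)
      · intro hnot
        exact absurd (Finset.mem_range.mpr (hbd k hk hN1 hN2 b0 hb0)) hnot
    · rw [hf k hk (not_le.mp hN2)]
      simp
  · rw [if_neg hN1]
    apply Finset.sum_eq_zero
    intro b _
    rw [if_neg]
    rintro ⟨h3, _⟩
    exact hN1 h3

end Pool.Agent.W293.PC
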